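import Pool.Agent.Y412.GJ.TiMinA
import Pool.Agent.Y883.GJ.Stm
import Pool.Agent.H373R2.T7.Lin

set_option autoImplicit false

/-! Project GJ, task TIMIN: smooth sums over all characters, minor arcs. -/

namespace Pool.Agent.Y412.GJ

open Finset
open Pool.Agent.H807R2.Dav
open Pool.Agent.Y883.GJ (ev TiMinStm)

theorem ev_bound (q y c : ℕ) [NeZero q] (β M : ℝ) (hM : (y : ℝ) / q + 1 ≤ M) :
    ‖∑ b ∈ Icc 1 y, ev (univ : Finset (DirichletCharacter ℂ q)) β (b * c)‖ ≤
      (q : ℝ) * KK M (c * (q * β)) := by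
  have hy0 : (0 : ℝ) ≤ (y : ℝ) / q := by positivity
  have hM0 : 0 ≤ M := by linarith
  have hK0 : 0 ≤ KK M (c * (q * β)) := KK_nonneg hM0 _
  have h1 : ‖∑ b ∈ Icc 1 y, ev (univ : Finset (DirichletCharacter ℂ q)) β (b * c)‖ ^ 2 ≤
      ((q : ℝ) * KK M (c * (q * β))) ^ 2 := by
    rw [EuclideanSpace.norm_sq_eq]
    refine le_trans (le_of_eq ?_) (chi_bound q y c β M hM)
    refine sum_congr rfl fun χ _ => ?_
    congr 2
    rw [WithLp.ofLp_sum, Finset.sum_apply]
    refine sum_congr rfl fun b _ => ?_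
    unfold ev
    simp only [mem_univ, if_true]
  exact le_of_sq_le_sq h1 (by positivity)

theorem tiMin : TiMinStm := by
  refine ⟨3600, ?_⟩
  intro q N D r _ h β hD hDN hqN hr hrN hcop hβ
  have hq : 0 < q := Nat.pos_of_ne_zero (NeZero.ne q)
  have hq0 : (0 : ℝ) < q := by exact_mod_cast hq
  have hq1 : (1 : ℝ) ≤ q := by exact_mod_cast hq
  have hr0 : (0 : ℝ) < r := by exact_mod_cast hr
  have hr1 : (1 : ℝ) ≤ r := by exact_mod_cast hr
  have hD1 : (1 : ℝ) ≤ D := by exact_mod_cast hD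
  have hN1 : (1 : ℝ) ≤ N := by exact_mod_cast hD.trans hDN
  set M : ℕ := N / q + 1 + D with hM
  have hM1 : 1 ≤ M := hD.trans (Nat.le_add_left D _)
  refine ⟨fun c => (q : ℝ) * KK (2 * M / c) (c * (q * β)), ?_, ?_⟩
  · intro c hc y hy
    rw [mem_Icc] at hc
    apply ev_bound
    have hc0 : (0 : ℝ) < c := by exact_mod_cast hc.1
    have h1 : (y : ℝ) ≤ (N : ℝ) / c := by
      have h2 : (y : ℝ) ≤ ((N / c : ℕ) : ℝ) := by exact_mod_cast hy
      exact h2.trans Nat.cast_div_le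
    have h2 : (N : ℝ) / q ≤ ((N / q : ℕ) : ℝ) + 1 := by
      rw [div_le_iff₀ hq0]
      have h3 := Nat.lt_div_mul_add (a := N) hq
      have h4 : N ≤ (N / q + 1) * q := by
        rw [add_mul, one_mul]
        omega
      exact_mod_cast h4
    have h3 : (c : ℝ) ≤ D := by exact_mod_cast hc.2
    have h4 : (M : ℝ) = ((N / q : ℕ) : ℝ) + 1 + D := by rw [hM]; push_cast; ring
    rw [le_div_iff₀ hc0, h4]
    have h5 : (y : ℝ) / q * c ≤ (N : ℝ) / q := by
      rw [div_mul_eq_mul_div, div_le_div_iff_of_pos_right hq0]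
      rw [le_div_iff₀ hc0] at h1
      exact h1
    have h6 : (0 : ℝ) ≤ ((N / q : ℕ) : ℝ) := Nat.cast_nonneg _
    calc ((y : ℝ) / q + 1) * c = (y : ℝ) / q * c + c := by ring
      _ ≤ (((N / q : ℕ) : ℝ) + 1) + D := add_le_add (h5.trans h2) h3
      _ ≤ 2 * (((N / q : ℕ) : ℝ) + 1 + D) := by linarith
  · rw [← mul_sum]
    have h1 := Pool.Agent.H373R2.T7.typeI_lin hr hcop hβ M D hM1 hD
    have hlog0 : 0 ≤ Real.log N := Real.log_nonneg hN1
    have hlogr : Real.log r ≤ Real.log N := Real.log_le_log hr0 (by exact_mod_cast hrN)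
    have hlogr0 : 0 ≤ Real.log r := Real.log_nonneg hr1
    have hlog2 : (Nat.log 2 D : ℝ) + 1 ≤ 2 * (1 + Real.log N) := by
      have h2 : (2 : ℝ) ^ (Nat.log 2 D) ≤ D := by
        exact_mod_cast Nat.pow_log_le_self 2 (by omega)
      have h3 : (Nat.log 2 D : ℝ) * Real.log 2 ≤ Real.log D := by
        have := Real.log_le_log (by positivity) h2
        rwa [Real.log_pow] at this
      have h4 : Real.log D ≤ Real.log N := Real.log_le_log (by linarith) (by exact_mod_cast hDN)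
      have h5 := Real.log_two_gt_d9
      have h6 : (0 : ℝ) ≤ Nat.log 2 D := Nat.cast_nonneg _
      nlinarith
    have hsum : (q : ℝ) * ((M : ℝ) / r + D + r) ≤ 3 * ((N : ℝ) / r + q * D + q * r) := by
      have h4 : (M : ℝ) ≤ (N : ℝ) / q + 1 + D := by
        rw [hM]
        push_cast
        have : ((N / q : ℕ) : ℝ) ≤ (N : ℝ) / q := Nat.cast_div_le
        linarith
      have h5 : (q : ℝ) * ((M : ℝ) / r) ≤ (N : ℝ) / r + q * (1 + D) := by
        have h6 : (q : ℝ) * M ≤ N + q * (1 + D) := by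
          calc (q : ℝ) * M ≤ q * ((N : ℝ) / q + 1 + D) := mul_le_mul_of_nonneg_left h4 hq0.le
            _ = N + q * (1 + D) := by field_simp; ring
        have h7 : (q : ℝ) * ((M : ℝ) / r) = (q * M) / r := by ring
        rw [h7]
        have h8 : (q * M : ℝ) / r ≤ (N + q * (1 + D)) / r := div_le_div_of_nonneg_right h6 hr0.le
        have h9 : (q * (1 + D) : ℝ) / r ≤ q * (1 + D) := div_le_self (by positivity) hr1
        have h10 : ((N : ℝ) + q * (1 + D)) / r = N / r + (q * (1 + D)) / r := by ring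
        linarith
      have h11 : (0 : ℝ) ≤ (N : ℝ) / r := by positivity
      have h12 : (0 : ℝ) ≤ q * r := by positivity
      have h13 : (q : ℝ) ≤ q * D := le_mul_of_one_le_right hq0.le hD1
      nlinarith
    have hX0 : (0 : ℝ) ≤ (N : ℝ) / r + q * D + q * r := by positivity
    calc (q : ℝ) * ∑ c ∈ Icc 1 D, KK (2 * M / c) (c * (q * β))
        ≤ q * (600 * (Nat.log 2 D + 1 : ℝ) * ((M : ℝ) / r + D + r) * (1 + Real.log r)) :=
          mul_le_mul_of_nonneg_left h1 hq0.le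
      _ = 600 * (Nat.log 2 D + 1 : ℝ) * ((q : ℝ) * ((M : ℝ) / r + D + r)) * (1 + Real.log r) := by ring
      _ ≤ 600 * (2 * (1 + Real.log N)) * (3 * ((N : ℝ) / r + q * D + q * r)) * (1 + Real.log N) := by
          gcongr
      _ = 3600 * ((N : ℝ) / r + q * D + q * r) * (1 + Real.log N) ^ 2 := by ring

end Pool.Agent.Y412.GJ
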