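import Pool.Agent.H807R2.Dav1

set_option autoImplicit false

/-! Project GJ, task TIMIN: progressions and orthogonality. -/

namespace Pool.Agent.Y412.GJ

open Finset
open Pool.Agent.H807R2.Dav

theorem prog_bound (q y : ℕ) [NeZero q] (l : ZMod q) (θ M : ℝ) (hM : (y : ℝ) / q + 1 ≤ M) :
    ‖∑ b ∈ (Icc 1 y).filter (fun b : ℕ => (b : ZMod q) = l), ee (b * θ)‖ ≤ KK M (q * θ) := by
  have hq : 0 < q := Nat.pos_of_ne_zero (NeZero.ne q)
  have hq0 : (0 : ℝ) < q := by exact_mod_cast hq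
  have hl : l.val < q := ZMod.val_lt l
  set a0 : ℕ := if l.val = 0 then 1 else 0 with ha0
  set b0 : ℕ := (y + q - l.val) / q with hb0
  have hlt : ∀ k : ℕ, k < b0 ↔ q * k + l.val ≤ y := by
    intro k
    rw [hb0, Nat.lt_iff_add_one_le, Nat.le_div_iff_mul_le hq, add_mul, one_mul, mul_comm k q]
    omega
  have hge : ∀ k : ℕ, a0 ≤ k ↔ 1 ≤ q * k + l.val := by
    intro k
    rw [ha0]
    split_ifs with h
    · rw [h, add_zero]
      constructor
      · intro hk
        exact Nat.mul_pos hq hk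
      · intro hk
        by_contra hno
        have : k = 0 := by omega
        rw [this, mul_zero] at hk
        omega
    · constructor
      · intro _; omega
      · intro _; omega
  have hab : a0 ≤ b0 := by
    rw [ha0]
    split_ifs with h
    · rw [hb0, h, Nat.sub_zero, Nat.add_div_right y hq]
      exact Nat.succ_le_succ (Nat.zero_le _)
    · exact Nat.zero_le _
  have hmod : ∀ b : ℕ, (b : ZMod q) = l ↔ b % q = l.val := by
    intro b
    rw [← ZMod.val_natCast]
    exact ⟨fun h => by rw [h], fun h => ZMod.val_injective q h⟩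
  have h1 : ∑ b ∈ (Icc 1 y).filter (fun b : ℕ => (b : ZMod q) = l), ee (b * θ) =
      ∑ k ∈ Ico a0 b0, ee (((q * k + l.val : ℕ) : ℝ) * θ) := by
    refine Finset.sum_nbij' (fun b => b / q) (fun k => q * k + l.val) ?_ ?_ ?_ ?_ ?_
    · intro b hb
      rw [mem_filter, mem_Icc, hmod] at hb
      have h2 : q * (b / q) + l.val = b := by rw [← hb.2]; exact Nat.div_add_mod b q
      rw [mem_Ico, hge, hlt, h2]
      exact hb.1
    · intro k hk
      rw [mem_Ico, hge, hlt] at hk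
      rw [mem_filter, mem_Icc, hmod]
      refine ⟨hk, ?_⟩
      rw [Nat.mul_add_mod, Nat.mod_eq_of_lt hl]
    · intro b hb
      rw [mem_filter, mem_Icc, hmod] at hb
      rw [← hb.2]
      exact Nat.div_add_mod b q
    · intro k _
      rw [Nat.mul_add_div hq, Nat.div_eq_of_lt hl, add_zero]
    · intro b hb
      rw [mem_filter, mem_Icc, hmod] at hb
      rw [← hb.2, Nat.div_add_mod b q]
  have h2 : ∀ k : ℕ, ee (((q * k + l.val : ℕ) : ℝ) * θ) = ee (l.val * θ) * ee (k * (q * θ)) := by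
    intro k
    rw [← ee_add]
    congr 1
    push_cast
    ring
  rw [h1, sum_congr rfl fun k _ => h2 k, ← mul_sum, norm_mul, norm_ee, one_mul]
  apply geo_bound a0 b0 hab
  have h3 : (b0 : ℝ) ≤ (y : ℝ) / q + 1 := by
    have h4 : b0 ≤ (y + q) / q := Nat.div_le_div_right (by omega)
    have h5 : (((y + q) / q : ℕ) : ℝ) ≤ ((y + q : ℕ) : ℝ) / q := Nat.cast_div_le
    have h6 : (b0 : ℝ) ≤ (((y + q) / q : ℕ) : ℝ) := by exact_mod_cast h4
    have h7 : ((y + q : ℕ) : ℝ) / q = (y : ℝ) / q + 1 := by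
      push_cast
      field_simp
    linarith
  have h8 : (0 : ℝ) ≤ a0 := Nat.cast_nonneg _
  linarith

theorem orth (q : ℕ) [NeZero q] (a b : ZMod q) :
    ∑ χ : DirichletCharacter ℂ q, χ a * (starRingEnd ℂ) (χ b) =
      if a = b ∧ IsUnit b then (q.totient : ℂ) else 0 := by
  by_cases hb : IsUnit b
  · have h1 : ∀ χ : DirichletCharacter ℂ q, (starRingEnd ℂ) (χ b) = χ b⁻¹ := by
      intro χ
      have h2 : star (χ b) = χ⁻¹ b := MulChar.star_apply' χ b
      have h3 : (starRingEnd ℂ) (χ b) = star (χ b) := rfl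
      obtain ⟨u, rfl⟩ := hb
      rw [h3, h2, MulChar.inv_apply, Ring.inverse_unit, ZMod.inv_coe_unit]
    have h4 := DirichletCharacter.sum_char_inv_mul_char_eq ℂ hb a
    calc ∑ χ : DirichletCharacter ℂ q, χ a * (starRingEnd ℂ) (χ b)
        = ∑ χ : DirichletCharacter ℂ q, χ b⁻¹ * χ a :=
          Finset.sum_congr rfl fun χ _ => by rw [h1, mul_comm]
      _ = if b = a then (q.totient : ℂ) else 0 := h4
      _ = _ := by
        by_cases hab : a = b
        · rw [if_pos hab.symm, if_pos ⟨hab, hb⟩]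
        · rw [if_neg (Ne.symm hab), if_neg (fun h => hab h.1)]
  · have h1 : ∀ χ : DirichletCharacter ℂ q, χ b = 0 := fun χ => MulChar.map_nonunit χ hb
    rw [if_neg (fun h => hb h.2)]
    exact Finset.sum_eq_zero fun χ _ => by rw [h1, map_zero, mul_zero]

theorem planch (q : ℕ) [NeZero q] (C : ZMod q → ℂ) :
    ∑ χ : DirichletCharacter ℂ q, ‖∑ a, χ a * C a‖ ^ 2 ≤ (q.totient : ℝ) * ∑ a, ‖C a‖ ^ 2 := by
  classical
  have h1 : ((∑ χ : DirichletCharacter ℂ q, ‖∑ a, χ a * C a‖ ^ 2 : ℝ) : ℂ) =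
      ((∑ a, (if IsUnit a then (q.totient : ℝ) * ‖C a‖ ^ 2 else 0) : ℝ) : ℂ) := by
    have h2 : ∀ χ : DirichletCharacter ℂ q, ((‖∑ a, χ a * C a‖ ^ 2 : ℝ) : ℂ) =
        ∑ a, ∑ b, C a * (starRingEnd ℂ) (C b) * (χ a * (starRingEnd ℂ) (χ b)) := by
      intro χ
      rw [Complex.ofReal_pow, ← Complex.mul_conj', map_sum, Finset.sum_mul_sum]
      refine Finset.sum_congr rfl fun a _ => Finset.sum_congr rfl fun b _ => ?_
      rw [map_mul]
      ring
    rw [Complex.ofReal_sum]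
    simp_rw [h2]
    rw [Finset.sum_comm]
    rw [Complex.ofReal_sum]
    refine Finset.sum_congr rfl fun a _ => ?_
    rw [Finset.sum_comm]
    have h3 : ∀ b, ∑ χ : DirichletCharacter ℂ q, C a * (starRingEnd ℂ) (C b) *
        (χ a * (starRingEnd ℂ) (χ b)) = C a * (starRingEnd ℂ) (C b) *
          (if a = b ∧ IsUnit b then (q.totient : ℂ) else 0) := by
      intro b
      rw [← Finset.mul_sum, orth]
    rw [Finset.sum_congr rfl fun b _ => h3 b, Finset.sum_eq_single a]
    · by_cases ha : IsUnit a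
      · rw [if_pos ⟨rfl, ha⟩, if_pos ha, Complex.mul_conj']
        push_cast
        ring
      · rw [if_neg (fun h => ha h.2), if_neg ha]
        simp
    · intro b _ hb
      rw [if_neg (fun h => hb h.1.symm), mul_zero]
    · intro h
      exact absurd (Finset.mem_univ a) h
  have h2 := Complex.ofReal_injective h1
  rw [h2, Finset.mul_sum]
  refine Finset.sum_le_sum fun a _ => ?_
  split_ifs
  · exact le_rfl
  · positivity

/-- the mean square of the twisted sums over all characters -/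
theorem chi_bound (q y c : ℕ) [NeZero q] (β M : ℝ) (hM : (y : ℝ) / q + 1 ≤ M) :
    ∑ χ : DirichletCharacter ℂ q, ‖∑ b ∈ Icc 1 y, χ ((b * c : ℕ) : ZMod q) * ee ((b * c : ℕ) * β)‖ ^ 2 ≤
      ((q : ℝ) * KK M (c * (q * β))) ^ 2 := by
  have hq : 0 < q := Nat.pos_of_ne_zero (NeZero.ne q)
  have hy0 : (0 : ℝ) ≤ (y : ℝ) / q := by positivity
  have hM0 : 0 ≤ M := by linarith
  have hK0 : 0 ≤ KK M (c * (q * β)) := KK_nonneg hM0 _
  set C : ZMod q → ℂ := fun l => ∑ b ∈ (Icc 1 y).filter (fun b : ℕ => (b : ZMod q) = l), ee (b * (c * β)) with hC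
  have h1 : ∀ χ : DirichletCharacter ℂ q, ‖∑ b ∈ Icc 1 y, χ ((b * c : ℕ) : ZMod q) * ee ((b * c : ℕ) * β)‖ ^ 2 ≤
      ‖∑ a, χ a * C a‖ ^ 2 := by
    intro χ
    have h2 : ∑ b ∈ Icc 1 y, χ ((b * c : ℕ) : ZMod q) * ee ((b * c : ℕ) * β) =
        χ (c : ZMod q) * ∑ a, χ a * C a := by
      have h3 : ∑ a, χ a * C a = ∑ b ∈ Icc 1 y, χ (b : ZMod q) * ee (b * (c * β)) := by
        rw [← Finset.sum_fiberwise (Icc 1 y) (fun b : ℕ => (b : ZMod q))
          (fun b => χ (b : ZMod q) * ee (b * (c * β)))]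
        refine sum_congr rfl fun a _ => ?_
        rw [hC]
        simp only
        rw [mul_sum]
        refine sum_congr rfl fun b hb => ?_
        rw [(mem_filter.1 hb).2]
      rw [h3, mul_sum]
      refine sum_congr rfl fun b _ => ?_
      rw [Nat.cast_mul, map_mul]
      have h4 : ((b * c : ℕ) : ℝ) * β = b * (c * β) := by push_cast; ring
      rw [h4]
      ring
    rw [h2, norm_mul]
    have h5 : ‖χ (c : ZMod q)‖ ≤ 1 := DirichletCharacter.norm_le_one χ _
    have h6 : ‖χ (c : ZMod q)‖ * ‖∑ a, χ a * C a‖ ≤ ‖∑ a, χ a * C a‖ :=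
      mul_le_of_le_one_left (norm_nonneg _) h5
    exact pow_le_pow_left₀ (by positivity) h6 2
  refine (sum_le_sum fun χ _ => h1 χ).trans ((planch q C).trans ?_)
  have h2 : ∀ a : ZMod q, ‖C a‖ ^ 2 ≤ KK M (c * (q * β)) ^ 2 := by
    intro a
    have h3 := prog_bound q y a (c * β) M hM
    have h4 : (q : ℝ) * (c * β) = c * (q * β) := by ring
    rw [h4] at h3
    exact pow_le_pow_left₀ (norm_nonneg _) h3 2
  have h3 : ∑ a : ZMod q, ‖C a‖ ^ 2 ≤ (q : ℝ) * KK M (c * (q * β)) ^ 2 := by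
    refine (sum_le_sum fun a _ => h2 a).trans ?_
    rw [sum_const, card_univ, ZMod.card, nsmul_eq_mul]
  have h4 : (q.totient : ℝ) ≤ q := by exact_mod_cast Nat.totient_le q
  calc (q.totient : ℝ) * ∑ a : ZMod q, ‖C a‖ ^ 2 ≤ q * ((q : ℝ) * KK M (c * (q * β)) ^ 2) :=
        mul_le_mul h4 h3 (by positivity) (by positivity)
    _ = _ := by ring

end Pool.Agent.Y412.GJ
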